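import Pool.Agent.ER.Defs

/-!
# Collinearity logic with bounded collinear groups
-/

namespace Pool.Agent.NPC.R537CO

/-- An instance with groups: the list of the groups (each of them the list of its variables, which
are natural numbers) and the list of the negative atoms `¬ COL(a, b, c)`. -/
abbrev GInst : Type := List (List ℕ) × List (ℕ × ℕ × ℕ)

/-- Every group has at most `k` variables and two distinct groups share at most one variable. -/
def GInst.Valid (k : ℕ) (I : GInst) : Prop :=
  (∀ G ∈ I.1, G.toFinset.card ≤ k) ∧
    ∀ G ∈ I.1, ∀ H ∈ I.1, G.toFinset ≠ H.toFinset → (G.toFinset ∩ H.toFinset).card ≤ 1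

/-- The assignment `p` of points of the plane satisfies all atoms: the positive atoms
`COL(a, b, c)` with `a`, `b`, `c` in a common group and the negative atoms. -/
def GInst.SatBy (I : GInst) (p : ℕ → ℝ × ℝ) : Prop :=
  (∀ G ∈ I.1, ∀ a ∈ G, ∀ b ∈ G, ∀ c ∈ G, Collinear ℝ {p a, p b, p c}) ∧
    ∀ t ∈ I.2, ¬ Collinear ℝ {p t.1, p t.2.1, p t.2.2}

/-- The decision problem `COL_k`: the instance has groups of at most `k` variables, two distinct
groups share at most one variable, and the atoms can be satisfied by points of the plane. -/
def COLk (k : ℕ) (I : GInst) : Prop := I.Valid k ∧ ∃ p : ℕ → ℝ × ℝ, I.SatBy p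

end Pool.Agent.NPC.R537CO
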