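import Pool.Agent.R537.CO.Defs
import Pool.Agent.R537.CO.Sound
import Pool.Agent.H621R2.Lin
import Pool.Agent.H612.CollectPoly

/-!
# `COL_k` is `∃ℝ`-hard for every `k ≥ 3`
-/

set_option autoImplicit false

namespace Pool.Agent.NPC.R537CO

open Pool.Agent.H621R2 Pool.Agent.NPC Pool.Agent.NPC.ER Pool.Agent.R537.CO

theorem collinear_iff_col (P Q R : ℝ × ℝ) : Collinear ℝ {P, Q, R} ↔ Col P Q R := by
  rw [collinear_iff_of_mem (p₀ := P) (by simp)]
  constructor
  · rintro ⟨v, hv⟩
    obtain ⟨r, hr⟩ := hv Q (by simp)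
    obtain ⟨s, hs⟩ := hv R (by simp)
    rw [hr, hs]
    simp only [Col, cr, vadd_eq_add, Prod.fst_sub, Prod.snd_sub, Prod.fst_add, Prod.snd_add,
      Prod.smul_fst, Prod.smul_snd, smul_eq_mul]
    ring
  · intro h
    by_cases hPQ : P = Q
    · refine ⟨R - P, fun X hX => ?_⟩
      simp only [Set.mem_insert_iff, Set.mem_singleton_iff] at hX
      rcases hX with rfl | rfl | rfl
      · exact ⟨0, by simp⟩
      · exact ⟨0, by simp [hPQ]⟩
      · exact ⟨1, by simp⟩
    · obtain ⟨s, hs⟩ := exists_param_of_col hPQ h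
      refine ⟨Q - P, fun X hX => ?_⟩
      simp only [Set.mem_insert_iff, Set.mem_singleton_iff] at hX
      rcases hX with rfl | rfl | rfl
      · exact ⟨0, by simp⟩
      · exact ⟨1, by simp⟩
      · exact ⟨s, by rw [hs, vadd_eq_add, add_comm]⟩

/-- The list of the triples of a system. -/
def TT (S : List Con) : List (ℕ × ℕ × ℕ) := trip (gatesOf S)

/-- The vertices. -/
def VL (S : List Con) : List ℕ := [0, 2, 4] ++ (gads (TT S) 0).flatten

/-- The pairs of distinct vertices. -/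
def PL (S : List Con) : List (ℕ × ℕ) :=
  ((VL S).flatMap fun u => (VL S).map fun v => (u, v)).filter fun w => decide (w.1 ≠ w.2)

/-- The instance of a system. -/
def ginst (S : List Con) : GInst :=
  ((gads (TT S) 0).map (List.map fun v => 2 * v),
    (0, 4, 8) :: (PL S).zipIdx.map fun q => (2 * q.1.1, 2 * q.1.2, 2 * q.2 + 1))

theorem mem_PL {S : List Con} {u v : ℕ} (hu : u ∈ VL S) (hv : v ∈ VL S) (h : u ≠ v) :
    (u, v) ∈ PL S := by
  unfold PL
  rw [List.mem_filter]
  exact ⟨List.mem_flatMap.2 ⟨u, hu, List.mem_map.2 ⟨v, hv, rfl⟩⟩, by simpa using h⟩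

theorem of_mem_PL {S : List Con} {w : ℕ × ℕ} (h : w ∈ PL S) :
    w.1 ∈ VL S ∧ w.2 ∈ VL S ∧ w.1 ≠ w.2 := by
  unfold PL at h
  rw [List.mem_filter, List.mem_flatMap] at h
  obtain ⟨⟨u, hu, h1⟩, h2⟩ := h
  rw [List.mem_map] at h1
  obtain ⟨v, hv, rfl⟩ := h1
  exact ⟨hu, hv, by simpa using h2⟩

theorem card_double (e : List ℕ) :
    (e.map fun v => 2 * v).toFinset.card = e.toFinset.card := by
  have h : (e.map fun v => 2 * v).toFinset = e.toFinset.image fun v => 2 * v := by
    ext v; simp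
  rw [h, Finset.card_image_of_injective _ (fun a b hab => by simpa using hab)]

theorem inter_double (e f : List ℕ) :
    ((e.map fun v => 2 * v).toFinset ∩ (f.map fun v => 2 * v).toFinset).card =
      (e.toFinset ∩ f.toFinset).card := by
  have hinj : Function.Injective fun v : ℕ => 2 * v := fun a b hab => by simpa using hab
  have h : ∀ e : List ℕ, (e.map fun v => 2 * v).toFinset = e.toFinset.image fun v => 2 * v := by
    intro e; ext v; simp
  rw [h, h, ← Finset.image_inter _ _ hinj, Finset.card_image_of_injective _ hinj]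

theorem ginst_valid {k : ℕ} (hk : 3 ≤ k) (S : List Con) : (ginst S).Valid k := by
  constructor
  · intro G hG
    obtain ⟨e, he, rfl⟩ := List.mem_map.1 hG
    rw [card_double]
    have := (hyp_card (P := []) (T := TT S) (by simp) (fun u hu => trip_distinct hu)
      (by simpa [hyp] using he)).2
    omega
  · intro G hG H hH hne
    obtain ⟨e, he, rfl⟩ := List.mem_map.1 hG
    obtain ⟨f, hf, rfl⟩ := List.mem_map.1 hH
    rw [inter_double]
    refine hyp_lin (P := []) (T := TT S) (fun u hu => trip_distinct hu)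
      (by simpa [hyp] using he) (by simpa [hyp] using hf) ?_
    intro h
    apply hne
    have h' : ∀ e : List ℕ, (e.map fun v => 2 * v).toFinset = e.toFinset.image fun v => 2 * v := by
      intro e; ext v; simp
    rw [h', h', h]

theorem mem_VL_of_gads {S : List Con} {e : List ℕ} (he : e ∈ gads (TT S) 0) {v : ℕ}
    (hv : v ∈ e) : v ∈ VL S :=
  List.mem_append_right _ (List.mem_flatten.2 ⟨e, he, hv⟩)

/-- **Soundness.** -/
theorem sat_of_col {S : List Con} {p : ℕ → ℝ × ℝ} (h : (ginst S).SatBy p) : Sat S := by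
  obtain ⟨hpos, hneg⟩ := h
  set r : ℕ → Pt := fun v => p (2 * v) with hr
  have hcol : ∀ v1 v2 v3, [v1, v2, v3] ∈ gads (TT S) 0 → Col (r v1) (r v2) (r v3) := by
    intro v1 v2 v3 he
    have h1 := hpos _ (List.mem_map.2 ⟨_, he, rfl⟩) (2 * v1) (by simp) (2 * v2) (by simp)
      (2 * v3) (by simp)
    exact (collinear_iff_col _ _ _).1 h1
  have hinj : Set.InjOn r {v | v ∈ VL S} := by
    intro u hu v hv huv
    by_contra hne
    obtain ⟨t, ht⟩ := mem_zipIdx_of_mem (mem_PL hu hv hne) 0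
    have h1 := hneg _ (List.mem_cons_of_mem _ (List.mem_map.2 ⟨_, ht, rfl⟩))
    apply h1
    rw [collinear_iff_col]
    have h2 : p (2 * u) = p (2 * v) := huv
    simp only [h2]
    simp [Col, cr]
  have hbase : ¬ Col (r 0) (r 2) (r 4) := by
    have h1 := hneg (0, 4, 8) (List.mem_cons_self)
    rw [collinear_iff_col] at h1
    exact h1
  have hgad : ∀ u ∈ TT S, ∃ j, ∀ e ∈ gad (2 * u.1) (2 * u.2.1) (2 * u.2.2) (fr j),
      e ∈ gads (TT S) 0 := by
    intro u hu
    obtain ⟨j, hj⟩ := mem_zipIdx_of_mem hu 0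
    exact ⟨j, fun e he => mem_gads_iff.2 ⟨_, hj, he⟩⟩
  have hn : ∀ v ∈ names3 prs (TT S), 2 * v ∈ VL S := by
    intro v hv
    rcases hv with ⟨u, hu, hv⟩ | ⟨u, hu, hv⟩
    · simp only [prs, List.mem_cons, List.not_mem_nil, or_false] at hu
      unfold VL
      rcases hu with rfl | rfl | rfl <;> rcases hv with rfl | rfl <;> simp
    · obtain ⟨j, hj⟩ := hgad u hu
      rcases hv with rfl | rfl | rfl
      · exact mem_VL_of_gads (hj [fr j 0, fr j 4, 2 * u.1] (by simp [gad])) (by simp)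
      · exact mem_VL_of_gads (hj [fr j 0, fr j 5, 2 * u.2.1] (by simp [gad])) (by simp)
      · exact mem_VL_of_gads (hj [fr j 1, fr j 5, 2 * u.2.2] (by simp [gad])) (by simp)
  have hinj' : Set.InjOn (fun v => r (2 * v)) (names3 prs (TT S)) := by
    intro u hu v hv huv
    have := hinj (hn u hu) (hn v hv) huv
    omega
  have hT : ∀ u ∈ TT S, Col (r (2 * u.1)) (r (2 * u.2.1)) (r (2 * u.2.2)) := by
    intro u hu
    obtain ⟨j, hj⟩ := hgad u hu
    refine gad_sound' (V := {v | v ∈ VL S}) hinj (fun v1 v2 v3 he => hcol _ _ _ (hj _ he))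
      (hn _ (Or.inr ⟨u, hu, Or.inl rfl⟩))
      (fun a b hab => (fr_inj hab).2) ?_ (fun i => fr_ne_even _ _ _)
    intro i
    have : ∃ e ∈ gad (2 * u.1) (2 * u.2.1) (2 * u.2.2) (fr j), fr j i ∈ e := by
      fin_cases i
      · exact ⟨[fr j 0, fr j 1, fr j 2], by simp [gad], by simp⟩
      · exact ⟨[fr j 0, fr j 1, fr j 2], by simp [gad], by simp⟩
      · exact ⟨[fr j 0, fr j 1, fr j 2], by simp [gad], by simp⟩
      · exact ⟨[fr j 3, fr j 4, fr j 5], by simp [gad], by simp⟩
      · exact ⟨[fr j 3, fr j 4, fr j 5], by simp [gad], by simp⟩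
      · exact ⟨[fr j 3, fr j 4, fr j 5], by simp [gad], by simp⟩
    obtain ⟨e, he, hi⟩ := this
    exact mem_VL_of_gads (hj e he) hi
  have hD : cr (r (2 * 0) - r (2 * 1)) (r (2 * 2) - r (2 * 1)) ≠ 0 := by
    intro h0
    apply hbase
    simp only [Nat.mul_zero, Nat.mul_one] at h0
    simp only [Col, cr, Prod.fst_sub, Prod.snd_sub] at h0 ⊢
    linarith
  obtain ⟨fin, val, f0, v0, f2, v2, hg⟩ := gates_sound' (q := fun v => r (2 * v)) hinj' hT hD
  exact gatesOf_sound f0 v0 f2 v2 hg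

/-- **Completeness.** -/
theorem col_of_sat {S : List Con} (h : Sat S) : ∃ p : ℕ → ℝ × ℝ, (ginst S).SatBy p := by
  classical
  obtain ⟨val, h0, h2, hg⟩ := gatesOf_complete h
  obtain ⟨q, hq⟩ := gates_complete _ val h0 h2 hg
  obtain ⟨r, hr⟩ := hyp_complete hq (fun u hu => trip_distinct hu)
  have hD := hD_of_R3 (hyp_sound hr)
  simp only [Nat.mul_zero, Nat.mul_one] at hD
  have hVs : ∀ v ∈ VL S, v ∈ vs (hyp prs (trip (gatesOf S))) := by
    intro v hv
    unfold VL at hv
    rcases List.mem_append.1 hv with hv | hv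
    · simp only [List.mem_cons, List.not_mem_nil, or_false] at hv
      have k1 : [2 * 1, 2 * 0] ∈ hyp prs (trip (gatesOf S)) :=
        List.mem_append_left _ (List.mem_map.2 ⟨(1, 0), by simp [prs], rfl⟩)
      have k2 : [2 * 1, 2 * 2] ∈ hyp prs (trip (gatesOf S)) :=
        List.mem_append_left _ (List.mem_map.2 ⟨(1, 2), by simp [prs], rfl⟩)
      rcases hv with rfl | rfl | rfl
      · exact mem_vs k1 (by simp)
      · exact mem_vs k1 (by simp)
      · exact mem_vs k2 (by simp)
    · obtain ⟨e, he, hv⟩ := List.mem_flatten.1 hv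
      exact mem_vs (List.mem_append_right _ he) hv
  let ext : ℕ × ℕ → Pt := fun w => r w.1 + (-(r w.2 - r w.1).2, (r w.2 - r w.1).1)
  let p : ℕ → ℝ × ℝ := fun n => if n % 2 = 0 then r (n / 2) else ext ((PL S).getD (n / 2) (0, 0))
  have p0 : ∀ v, p (2 * v) = r v := by
    intro v
    simp only [p]
    rw [if_pos (by omega), Nat.mul_div_cancel_left _ (by norm_num)]
  have p1 : ∀ t, p (2 * t + 1) = ext ((PL S).getD t (0, 0)) := by
    intro t
    simp only [p]
    rw [if_neg (by omega)]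
    congr 3
    omega
  refine ⟨p, ?_, ?_⟩
  · intro G hG a ha b hb c hc
    obtain ⟨e, he, rfl⟩ := List.mem_map.1 hG
    obtain ⟨a, ha', rfl⟩ := List.mem_map.1 ha
    obtain ⟨b, hb', rfl⟩ := List.mem_map.1 hb
    obtain ⟨c, hc', rfl⟩ := List.mem_map.1 hc
    rw [collinear_iff_col, p0, p0, p0]
    have he' : e ∈ hyp prs (trip (gatesOf S)) := List.mem_append_right _ he
    obtain ⟨x, y, hxy⟩ := hr.2 e he'
    exact col_of_mem_segment ((hxy a (mem_vs he' ha')).2 ha') ((hxy b (mem_vs he' hb')).2 hb')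
      ((hxy c (mem_vs he' hc')).2 hc')
  · intro t ht
    rcases List.mem_cons.1 ht with rfl | ht
    · rw [collinear_iff_col]
      have e0 : p 0 = r 0 := p0 0
      have e1 : p 4 = r 2 := p0 2
      have e2 : p 8 = r 4 := p0 4
      simp only
      rw [e0, e1, e2]
      intro hc
      apply hD
      simp only [Col, cr, Prod.fst_sub, Prod.snd_sub] at hc ⊢
      linarith
    · obtain ⟨⟨⟨u, v⟩, j⟩, hj, rfl⟩ := List.mem_map.1 ht
      have hz := List.mem_zipIdx hj
      have hw : (u, v) ∈ PL S := by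
        rw [hz.2.2]
        exact List.getElem_mem _
      obtain ⟨hu, hv, huv⟩ := of_mem_PL hw
      have hne : r u ≠ r v := fun he => huv (hr.1 (hVs u hu) (hVs v hv) he)
      have hget : (PL S).getD j (0, 0) = (u, v) := by
        rw [List.getD_eq_getElem _ _ (by omega)]
        simpa using hz.2.2.symm
      simp only
      rw [collinear_iff_col, p0, p0, p1, hget]
      simp only [ext, Col, cr, Prod.fst_sub, Prod.snd_sub, Prod.fst_add, Prod.snd_add]
      intro hc
      apply hne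
      have h3 : (r v).1 - (r u).1 = 0 ∧ (r v).2 - (r u).2 = 0 := by
        constructor
        · nlinarith [sq_nonneg ((r v).1 - (r u).1), sq_nonneg ((r v).2 - (r u).2)]
        · nlinarith [sq_nonneg ((r v).1 - (r u).1), sq_nonneg ((r v).2 - (r u).2)]
      ext
      · linarith [h3.1]
      · linarith [h3.2]

theorem sat_iff_colk {k : ℕ} (hk : 3 ≤ k) (S : List Con) : Sat S ↔ COLk k (ginst S) :=
  ⟨fun h => ⟨ginst_valid hk S, col_of_sat h⟩, fun ⟨_, _, h⟩ => sat_of_col h⟩

/-! ### Polynomial time -/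

section

variable {α : Type} [TEnc α]

theorem poly_gads {T : α → List (ℕ × ℕ × ℕ)} (hT : Poly T) : Poly (fun a => gads (T a) 0) := by
  unfold gads
  refine Poly.flatMap (F := fun (_ : α) (q : (ℕ × ℕ × ℕ) × ℕ) =>
    gad (2 * q.1.1) (2 * q.1.2.1) (2 * q.1.2.2) (fr q.2)) (Poly.zipIdx hT) ?_
  have h : Poly (fun p : α × (ℕ × ℕ × ℕ) × ℕ => p.2) := Poly.snd Poly.id
  exact poly_gad (Poly.mul (NPC.Poly.const 2) h.fst.fst) (Poly.mul (NPC.Poly.const 2) h.fst.snd.fst)
    (Poly.mul (NPC.Poly.const 2) h.fst.snd.snd) h.snd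

theorem poly_TT {S : α → List Con} (hS : Poly S) : Poly (fun a => TT (S a)) :=
  poly_trip (poly_gatesOf hS)

theorem poly_VL {S : α → List Con} (hS : Poly S) : Poly (fun a => VL (S a)) :=
  Poly.append (Poly.const _) (Poly.flatten (poly_gads (poly_TT hS)))

theorem poly_PL {S : α → List Con} (hS : Poly S) : Poly (fun a => PL (S a)) := by
  have hV := poly_VL hS
  refine Poly.filter (p := fun (_ : α) (w : ℕ × ℕ) => decide (w.1 ≠ w.2)) ?_ ?_
  · refine Poly.flatMap (F := fun a u => (VL (S a)).map fun v => (u, v)) hV ?_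
    exact Poly.map (F := fun (p : α × ℕ) v => (p.2, v)) (hV.comp (Poly.fst Poly.id))
      (Poly.pair (Poly.snd (Poly.fst Poly.id)) (Poly.snd Poly.id))
  · have h := Poly.not (Poly.decide_eq (Poly.fst (Poly.snd (Poly.id (α := α × (ℕ × ℕ)))))
      (Poly.snd (Poly.snd (Poly.id (α := α × (ℕ × ℕ))))))
    exact h.congr fun p => by simp

theorem poly_ginst {S : α → List Con} (hS : Poly S) : Poly (fun a => ginst (S a)) := by
  refine Poly.pair ?_ (Poly.cons (Poly.const _) ?_)
  · refine Poly.map (F := fun _ e => e.map fun v => 2 * v) (poly_gads (poly_TT hS)) ?_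
    exact Poly.map (F := fun _ v => 2 * v) (Poly.snd Poly.id)
      (Poly.mul (Poly.const 2) (Poly.snd Poly.id))
  · refine Poly.map (F := fun _ (q : (ℕ × ℕ) × ℕ) => (2 * q.1.1, 2 * q.1.2, 2 * q.2 + 1))
      (Poly.zipIdx (poly_PL hS)) ?_
    have h : Poly (fun p : α × (ℕ × ℕ) × ℕ => p.2) := Poly.snd Poly.id
    exact Poly.pair (Poly.mul (Poly.const 2) h.fst.fst)
      (Poly.pair (Poly.mul (Poly.const 2) h.fst.snd)
        (Poly.succ (Poly.mul (Poly.const 2) h.snd)))

end

/-- `COL_k` is `∃ℝ`-hard for every `k ≥ 3`. -/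
theorem colk_hard {k : ℕ} (hk : 3 ≤ k) : ERHard (lang (COLk k)) :=
  ERHard.of_sys (poly_ginst Poly.id) (sat_iff_colk hk)

end Pool.Agent.NPC.R537CO
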