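import Pool.Agent.R537.CO.Main
import Pool.Agent.ER.Rat
import Pool.Agent.ER.Dec
import Pool.Agent.H670R2.ERMem

/-!
# Membership of `COL_k` in `∃ℝ`
-/

set_option autoImplicit false

namespace Pool.Agent.NPC.R537CO

open Pool.Agent.H621R2 Pool.Agent.NPC Pool.Agent.NPC.ER Pool.Agent.NPC.H670R2
open Pool.Agent.NPC.H612 (poly_dedup)

/-- The difference of two variables. -/
def dTm (i j : ℕ) : Tm := Tm.add (Tm.var i) (Tm.neg (Tm.var j))

/-- Collinearity as a formula. -/
def colFm (a b c : ℕ) : Fm :=
  Fm.eq (Tm.mul (dTm (2 * b) (2 * a)) (dTm (2 * c + 1) (2 * a + 1)))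
    (Tm.mul (dTm (2 * b + 1) (2 * a + 1)) (dTm (2 * c) (2 * a)))

/-- The atoms of an instance. -/
def atoms (I : GInst) : List Fm :=
  (I.1.flatMap fun G => G.flatMap fun a => G.flatMap fun b => G.map fun c => colFm a b c) ++
    I.2.map fun t => Fm.not (colFm t.1 t.2.1 t.2.2)

/-- Equality of the underlying sets. -/
def eqSet (G H : List ℕ) : Bool := (G.all fun a => decide (a ∈ H)) && H.all fun a => decide (a ∈ G)

/-- The test for validity. -/
def validB (k : ℕ) (I : GInst) : Bool :=
  (I.1.all fun G => decide (G.dedup.length ≤ k)) &&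
    I.1.all fun G => I.1.all fun H => eqSet G H ||
      decide ((G.filter fun a => decide (a ∈ H)).dedup.length ≤ 1)

theorem eqSet_iff (G H : List ℕ) : eqSet G H = true ↔ G.toFinset = H.toFinset := by
  unfold eqSet
  simp only [Bool.and_eq_true, List.all_eq_true, decide_eq_true_eq]
  constructor
  · rintro ⟨h1, h2⟩
    ext a
    simp only [List.mem_toFinset]
    exact ⟨h1 a, h2 a⟩
  · intro h
    have h' : ∀ a, a ∈ G ↔ a ∈ H := fun a => by
      rw [← List.mem_toFinset, h, List.mem_toFinset]
    exact ⟨fun a ha => (h' a).1 ha, fun a ha => (h' a).2 ha⟩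

theorem validB_iff (k : ℕ) (I : GInst) : validB k I = true ↔ I.Valid k := by
  unfold validB GInst.Valid
  simp only [Bool.and_eq_true, List.all_eq_true, decide_eq_true_eq, Bool.or_eq_true, eqSet_iff]
  have h : ∀ G H : List ℕ, (G.filter fun a => decide (a ∈ H)).dedup.length =
      (G.toFinset ∩ H.toFinset).card := by
    intro G H
    rw [← List.card_toFinset]
    congr 1
    ext a
    simp
  simp only [List.card_toFinset, ← h]
  refine and_congr_right fun _ => forall_congr' fun G => forall_congr' fun _ =>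
    forall_congr' fun H => forall_congr' fun _ => ?_
  tauto

/-- The points of an assignment. -/
def ptOf (v : ℕ → ℝ) (n : ℕ) : ℝ × ℝ := (v (2 * n), v (2 * n + 1))

theorem holds_colFm (v : ℕ → ℝ) (a b c : ℕ) :
    (colFm a b c).Holds v ↔ Collinear ℝ {ptOf v a, ptOf v b, ptOf v c} := by
  rw [collinear_iff_col]
  simp only [colFm, dTm, Fm.Holds, Tm.eval, Col, cr, ptOf, Prod.fst_sub, Prod.snd_sub]
  constructor
  · intro h; linarith
  · intro h; linarith

theorem holds_atoms (I : GInst) (v : ℕ → ℝ) : (conj (atoms I)).Holds v ↔ I.SatBy (ptOf v) := by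
  rw [holds_conj]
  unfold atoms GInst.SatBy
  simp only [List.forall_mem_append, List.forall_mem_flatMap, List.forall_mem_map, Fm.Holds,
    holds_colFm]

/-- The formula of an instance. -/
def fCol (k : ℕ) (I : GInst) : Fm := bif validB k I then conj (atoms I) else H670R2.ff

theorem colk_iff_etr (k : ℕ) (I : GInst) : COLk k I ↔ ETR (fCol k I) := by
  unfold COLk fCol
  by_cases h : validB k I = true
  · rw [h, cond_true, ← validB_iff, h]
    simp only [true_and]
    unfold ETR
    simp_rw [holds_atoms]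
    constructor
    · rintro ⟨p, hp⟩
      refine ⟨fun n => if n % 2 = 0 then (p (n / 2)).1 else (p (n / 2)).2, ?_⟩
      have e : ptOf (fun n => if n % 2 = 0 then (p (n / 2)).1 else (p (n / 2)).2) = p := by
        funext n
        unfold ptOf
        simp only
        rw [if_pos (by omega), if_neg (by omega)]
        have e1 : 2 * n / 2 = n := by omega
        have e2 : (2 * n + 1) / 2 = n := by omega
        rw [e1, e2]
      rw [e]
      exact hp
    · rintro ⟨v, hv⟩
      exact ⟨ptOf v, hv⟩
  · have h' : validB k I = false := by simpa using h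
    rw [h', cond_false]
    constructor
    · rintro ⟨h1, -⟩
      exact absurd ((validB_iff k I).2 h1) h
    · intro h2
      exact absurd h2 not_etr_ff

section

variable {α : Type} [TEnc α]

theorem poly_dTm {i j : α → ℕ} (hi : Poly i) (hj : Poly j) :
    Poly (fun a => dTm (i a) (j a)) :=
  poly_tadd (poly_tvar hi) (poly_tneg (poly_tvar hj))

theorem poly_colFm {a b c : α → ℕ} (ha : Poly a) (hb : Poly b) (hc : Poly c) :
    Poly (fun x => colFm (a x) (b x) (c x)) := by
  have d : ∀ {n : α → ℕ}, Poly n → Poly (fun x => 2 * n x) := fun hn =>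
    Poly.mul (Poly.const 2) hn
  have d1 : ∀ {n : α → ℕ}, Poly n → Poly (fun x => 2 * n x + 1) := fun hn => Poly.succ (d hn)
  exact poly_eq (poly_tmul (poly_dTm (d hb) (d ha)) (poly_dTm (d1 hc) (d1 ha)))
    (poly_tmul (poly_dTm (d1 hb) (d1 ha)) (poly_dTm (d hc) (d ha)))

end

theorem poly_atoms : Poly atoms := by
  have h1 : Poly (fun I : GInst => I.1) := Poly.fst Poly.id
  have h2 : Poly (fun I : GInst => I.2) := Poly.snd Poly.id
  refine Poly.append ?_ ?_
  · refine Poly.flatMap (F := fun _ (G : List ℕ) => G.flatMap fun a => G.flatMap fun b =>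
      G.map fun c => colFm a b c) h1 ?_
    refine Poly.flatMap (F := fun (q : GInst × List ℕ) a => q.2.flatMap fun b =>
      q.2.map fun c => colFm a b c) (Poly.snd Poly.id) ?_
    refine Poly.flatMap (F := fun (q : (GInst × List ℕ) × ℕ) b =>
      q.1.2.map fun c => colFm q.2 b c) (Poly.snd (Poly.fst Poly.id)) ?_
    refine Poly.map (F := fun (q : ((GInst × List ℕ) × ℕ) × ℕ) c => colFm q.1.2 q.2 c)
      (Poly.snd (Poly.fst (Poly.fst Poly.id))) ?_
    exact poly_colFm (Poly.snd (Poly.fst (Poly.fst Poly.id))) (Poly.snd (Poly.fst Poly.id))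
      (Poly.snd Poly.id)
  · refine Poly.map (F := fun _ (t : ℕ × ℕ × ℕ) => Fm.not (colFm t.1 t.2.1 t.2.2)) h2 ?_
    have h : Poly (fun p : GInst × (ℕ × ℕ × ℕ) => p.2) := Poly.snd Poly.id
    exact poly_not (poly_colFm (Poly.fst h) (Poly.fst (Poly.snd h)) (Poly.snd (Poly.snd h)))

theorem poly_validB (k : ℕ) : Poly (validB k) := by
  have h1 : Poly (fun I : GInst => I.1) := Poly.fst Poly.id
  refine Poly.and ?_ ?_
  · refine Poly.all (p := fun (_ : GInst) (G : List ℕ) => decide (G.dedup.length ≤ k)) h1 ?_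
    exact Poly.decide_le (Poly.length (poly_dedup (Poly.snd Poly.id))) (Poly.const k)
  · refine Poly.all (p := fun (I : GInst) (G : List ℕ) => I.1.all fun H => eqSet G H ||
      decide ((G.filter fun a => decide (a ∈ H)).dedup.length ≤ 1)) h1 ?_
    refine Poly.all (p := fun (q : GInst × List ℕ) (H : List ℕ) => eqSet q.2 H ||
      decide ((q.2.filter fun a => decide (a ∈ H)).dedup.length ≤ 1))
      (Poly.fst (Poly.fst Poly.id)) ?_
    have hG : Poly (fun q : (GInst × List ℕ) × List ℕ => q.1.2) := Poly.snd (Poly.fst Poly.id)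
    have hH : Poly (fun q : (GInst × List ℕ) × List ℕ => q.2) := Poly.snd Poly.id
    refine Poly.or ?_ ?_
    · refine Poly.and ?_ ?_
      · exact Poly.all (p := fun (q : (GInst × List ℕ) × List ℕ) a => decide (a ∈ q.2)) hG
          (Poly.decide_mem (Poly.snd Poly.id) (hH.comp (Poly.fst Poly.id)))
      · exact Poly.all (p := fun (q : (GInst × List ℕ) × List ℕ) a => decide (a ∈ q.1.2)) hH
          (Poly.decide_mem (Poly.snd Poly.id) (hG.comp (Poly.fst Poly.id)))
    · refine Poly.decide_le (Poly.length (poly_dedup ?_)) (Poly.const 1)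
      exact Poly.filter (p := fun (q : (GInst × List ℕ) × List ℕ) a => decide (a ∈ q.2)) hG
        (Poly.decide_mem (Poly.snd Poly.id) (hH.comp (Poly.fst Poly.id)))

/-- `COL_k` belongs to `∃ℝ`. -/
theorem colk_mem (k : ℕ) : InER (lang (COLk k)) :=
  H670R2.InER.of_poly (Poly.cond (poly_validB k) (poly_conj poly_atoms) (Poly.const _))
    (colk_iff_etr k)

end Pool.Agent.NPC.R537CO
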